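import Pool.Agent.W2helper81.BY.Stm

/-!
Project BY, piece POLY: polynomial maps of the line are finite étale where the derivative is invertible.
-/

set_option autoImplicit false

namespace Pool.Agent.W2helper92.BY

open Polynomial
open Pool.Agent.W2helper81.BY

/-- a localised standard étale algebra -/
lemma generic {A B : Type} [CommRing A] [CommRing B] (f : A →+* B) (F : A[X]) (hF : F.Monic)
    (e : AdjoinRoot F ≃+* B) (he : ∀ a, e (AdjoinRoot.of F a) = f a) (G : A) (V W : A[X]) (N : ℕ)
    (h : derivative F * V + F * W = C G ^ N) : FE (Localization.awayMap f G) := by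
  let _ : Algebra A B := f.toAlgebra
  have hfin : f.Finite := by
    have h1 : Module.Finite A (AdjoinRoot F) := hF.finite_adjoinRoot
    let e' : AdjoinRoot F ≃ₐ[A] B := AlgEquiv.ofRingEquiv (f := e) he
    have h2 : Module.Finite A B := Module.Finite.equiv e'.toLinearEquiv
    exact h2
  refine ⟨RingHom.finite_localizationPreserves.away f G _ _ hfin, ?_⟩
  let e' : AdjoinRoot F ≃ₐ[A] B := AlgEquiv.ofRingEquiv (f := e) he
  let P : StandardEtalePair A := ⟨F, hF, C G, V, W, N, h⟩
  have h3 : Algebra.Etale A (Localization.Away (AdjoinRoot.mk F (C G))) :=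
    Algebra.Etale.of_equiv P.equivAwayAdjoinRoot
  have h4 : Submonoid.map e' (Submonoid.powers (AdjoinRoot.mk F (C G))) = Submonoid.powers (f G) := by
    rw [Submonoid.map_powers]
    congr 1
    exact he G
  let e'' : Localization.Away (AdjoinRoot.mk F (C G)) ≃ₐ[A] Localization.Away (f G) :=
    IsLocalization.algEquivOfAlgEquiv _ _ e' h4
  have h5 : Algebra.Etale A (Localization.Away (f G)) := Algebra.Etale.of_equiv e''
  let _ : Algebra (Localization.Away G) (Localization.Away (f G)) :=
    (Localization.awayMap f G).toAlgebra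
  have _ : IsScalarTower A (Localization.Away G) (Localization.Away (f G)) := by
    refine IsScalarTower.of_algebraMap_eq fun a => ?_
    rw [RingHom.algebraMap_toAlgebra]
    unfold Localization.awayMap IsLocalization.Away.map
    rw [IsLocalization.map_eq, IsScalarTower.algebraMap_apply A B]
    rfl
  have h6 : Algebra.Etale A (Localization.Away G) := Algebra.Etale.of_isLocalizationAway G
  exact Algebra.Etale.of_restrictScalars A (Localization.Away G) (Localization.Away (f G))

section

variable {R : Type} [CommRing R] (β : R[X]) (u : R)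

/-- `c⁻¹ (β(Y) - T)` -/
noncomputable def FF : R[X][X] := C (C u) * (β.map C - C X)

lemma FF_monic (hd : 0 < β.natDegree) (hu : u * β.leadingCoeff = 1) : (FF β u).Monic := by
  unfold FF
  apply monic_C_mul_of_mul_leadingCoeff_eq_one
  have h1 : (β.map C - C X : R[X][X]).leadingCoeff = C β.leadingCoeff := by
    rw [leadingCoeff_sub_of_degree_lt, leadingCoeff_map_of_injective C_injective]
    refine lt_of_le_of_lt degree_C_le ?_
    rw [degree_map_eq_of_injective C_injective]
    exact natDegree_pos_iff_degree_pos.1 hd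
  rw [h1, ← C_mul, hu, C_1]

lemma eval₂_FF {S : Type} [CommRing S] (g : R[X] →+* S) (x : S) :
    eval₂ g x (FF β u) = g (C u) * (eval₂ (g.comp C) x β - g X) := by
  unfold FF
  rw [eval₂_mul, eval₂_C, eval₂_sub, eval₂_C, eval₂_map]

/-- the map `T ↦ β` -/
noncomputable def ev : R[X] →+* R[X] := (aeval β : R[X] →ₐ[R] R[X]).toRingHom

lemma ev_C (r : R) : ev β (C r) = C r := by simp [ev]

lemma ev_X : ev β X = β := by simp [ev]

lemma ev_FF : eval₂ (ev β) X (FF β u) = 0 := by
  unfold FF
  rw [eval₂_mul, eval₂_C, eval₂_sub, eval₂_C, ev_X, eval₂_map]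
  have h1 : (ev β).comp C = C := RingHom.ext fun r => ev_C β r
  rw [h1, eval₂_C_X, sub_self, mul_zero]

/-- the ring of the map `T ↦ β` -/
noncomputable def ee (hu : u * β.leadingCoeff = 1) : AdjoinRoot (FF β u) ≃+* R[X] :=
  RingEquiv.ofRingHom (AdjoinRoot.lift (ev β) X (ev_FF β u))
    (eval₂RingHom ((AdjoinRoot.of (FF β u)).comp C) (AdjoinRoot.root (FF β u)))
    (by
      apply Polynomial.ringHom_ext
      · intro r
        simp [ev_C]
      · simp)
    (by
      apply AdjoinRoot.ringHom_ext
      · apply Polynomial.ringHom_ext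
        · intro r
          simp [ev_C]
        · simp only [RingHom.coe_comp, Function.comp_apply, AdjoinRoot.lift_of, ev_X,
            coe_eval₂RingHom, RingHomCompTriple.comp_apply]
          have h1 := AdjoinRoot.eval₂_root (FF β u)
          have h2 := eval₂_FF β u (AdjoinRoot.of (FF β u)) (AdjoinRoot.root (FF β u))
          rw [h1] at h2
          have h3 : AdjoinRoot.of (FF β u) (C β.leadingCoeff) * AdjoinRoot.of (FF β u) (C u) = 1 := by
            rw [← map_mul, ← C_mul, mul_comm, hu, C_1, map_one]
          have h4 := congrArg (fun z => AdjoinRoot.of (FF β u) (C β.leadingCoeff) * z) h2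
          simp only [mul_zero] at h4
          rw [← mul_assoc, h3, one_mul] at h4
          exact (sub_eq_zero.1 h4.symm)
      · simp)

lemma ee_of (hu : u * β.leadingCoeff = 1) (a : R[X]) :
    ee β u hu (AdjoinRoot.of (FF β u) a) = ev β a := by
  unfold ee
  simp

end

theorem POLY_ok : P_POLY := by
  intro R _ β P V N hc hd hV
  obtain ⟨u, hu⟩ : ∃ u, u * β.leadingCoeff = 1 := hc.exists_left_inv
  -- the relation
  have hrel : ∃ W : R[X][X], derivative (FF β u) * (C (C β.leadingCoeff) * V.map C) + FF β u * W =
      C P ^ N := by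
    have h1 := sub_dvd_eval_sub (β.map C : R[X][X]) (C X) ((P ^ N).map (C.comp C : R →+* R[X][X]))
    have h2 : eval (β.map C : R[X][X]) ((P ^ N).map (C.comp C : R →+* R[X][X])) =
        ((P.comp β) ^ N).map C := by
      rw [eval_map, ← Polynomial.pow_comp]
      have h3 := hom_eval₂ (P ^ N) (C : R →+* R[X]) (mapRingHom (C : R →+* R[X])) β
      rw [coe_mapRingHom] at h3
      rw [show (P ^ N).comp β = eval₂ C β (P ^ N) from rfl, h3]
      congr 1
      ext r
      simp
    have h4 : eval (C X : R[X][X]) ((P ^ N).map (C.comp C : R →+* R[X][X])) = C (P ^ N) := by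
      rw [eval_map]
      have h3 := hom_eval₂ (P ^ N) (C : R →+* R[X]) (C : R[X] →+* R[X][X]) X
      rw [eval₂_C_X] at h3
      exact h3.symm
    rw [h2, h4, ← hV] at h1
    obtain ⟨Q, hQ⟩ := h1
    refine ⟨-(C (C β.leadingCoeff) * Q), ?_⟩
    have h5 : (C (C u) * C (C β.leadingCoeff) : R[X][X]) = 1 := by
      rw [← C_mul, ← C_mul, hu, C_1, C_1]
    have h6 : derivative (FF β u) = C (C u) * (derivative β).map C := by
      unfold FF
      rw [derivative_C_mul, derivative_sub, derivative_C, sub_zero, derivative_map]
    rw [h6]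
    unfold FF
    rw [Polynomial.map_mul] at hQ
    rw [← C_pow]
    calc C (C u) * (derivative β).map C * (C (C β.leadingCoeff) * V.map C) +
          C (C u) * (β.map C - C X) * -(C (C β.leadingCoeff) * Q)
        = (C (C u) * C (C β.leadingCoeff)) * ((derivative β).map C * V.map C -
          (β.map C - C X) * Q) := by ring
      _ = C (P ^ N) := by
          rw [h5, one_mul, ← hQ]
          ring
  obtain ⟨W, hW⟩ := hrel
  have hFE := generic (ev β) (FF β u) (FF_monic β u hd hu) (ee β u hu) (ee_of β u hu) P _ W N hW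
  have key : ∀ Q : R[X], Q = aeval β P → ∃ φ : Localization.Away P →ₐ[R] Localization.Away Q,
      FE φ.toRingHom := by
    rintro Q rfl
    exact ⟨Localization.awayMapₐ (aeval β : R[X] →ₐ[R] R[X]) P, hFE⟩
  exact key _ rfl

end Pool.Agent.W2helper92.BY
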